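import Pool.Agent.K7.H66.TD.Base

set_option autoImplicit false

/-!
# Job OSC of project TD: `StHF → StOsc`
-/

namespace Pool.Agent.K7.H4.TD

open Finset Pool.Agent.K7.H66.TD

/-- reduction modulo `3 ^ h` -/
noncomputable def red {n h : ℕ} (hle : h ≤ n) : ZMod (3 ^ n) →+* ZMod (3 ^ h) :=
  ZMod.castHom (pow_dvd_pow 3 hle) _

theorem red_apply {n h : ℕ} (hle : h ≤ n) (Y : ZMod (3 ^ n)) : red hle Y = (Y.cast : ZMod (3 ^ h)) :=
  ZMod.castHom_apply _

theorem red_self {n : ℕ} (Y : ZMod (3 ^ n)) : red le_rfl Y = Y := by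
  have h1 : (red (le_refl n)) = RingHom.id (ZMod (3 ^ n)) := RingHom.ext_zmod _ _
  rw [h1]; rfl

theorem red_red {n h g : ℕ} (h1 : h ≤ n) (h2 : g ≤ h) (Y : ZMod (3 ^ n)) :
    red h2 (red h1 Y) = red (h2.trans h1) Y := by
  have h3 : (red h2).comp (red h1) = red (h2.trans h1) := RingHom.ext_zmod _ _
  rw [← h3]; rfl

theorem red_h2 {n h : ℕ} (hle : h ≤ n) : red hle (h2 n) = h2 h := by
  have h1 : (2 : ZMod (3 ^ h)) * red hle (h2 n) = 1 := by
    rw [← map_ofNat (red hle) 2, ← map_mul, h2_mul, map_one]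
  calc red hle (h2 n) = (2 * h2 h) * red hle (h2 n) := by rw [h2_mul, one_mul]
    _ = h2 h * (2 * red hle (h2 n)) := by ring
    _ = h2 h := by rw [h1, mul_one]

theorem red_cw {n h : ℕ} (hle : h ≤ n) (k : ℕ) (ρ : ZMod (3 ^ n)) (x : ℕ) :
    red hle (cw n k ρ x) = cw h k (red hle ρ) x := by
  unfold cw
  rw [map_mul, map_pow, red_h2, map_add, map_mul, map_pow, map_natCast, map_ofNat]

theorem pow_mul_eq {h h1 : ℕ} (hle : h1 ≤ h) {Y Y' : ZMod (3 ^ h)} (e : red hle Y = red hle Y') :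
    (3 : ZMod (3 ^ h)) ^ (h - h1) * Y = 3 ^ (h - h1) * Y' := by
  rw [red_apply, red_apply, ZMod.cast_eq_val, ZMod.cast_eq_val, ZMod.natCast_eq_natCast_iff] at e
  have e2 := Nat.ModEq.mul_left' (3 ^ (h - h1)) e
  rw [← pow_add, Nat.sub_add_cancel hle, ← ZMod.natCast_eq_natCast_iff] at e2
  push_cast at e2
  rwa [ZMod.natCast_zmod_val, ZMod.natCast_zmod_val] at e2

theorem card_fibre {h h1 : ℕ} (hle : h1 ≤ h) (y : ZMod (3 ^ h1)) :
    (univ.filter (fun Y : ZMod (3 ^ h) => red hle Y = y)).card = 3 ^ (h - h1) := by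
  have hs : ∀ y' : ZMod (3 ^ h1), (univ.filter (fun Y : ZMod (3 ^ h) => red hle Y = y')).card =
      (univ.filter (fun Y : ZMod (3 ^ h) => red hle Y = y)).card := by
    intro y'
    obtain ⟨z, hz⟩ := ZMod.castHom_surjective (pow_dvd_pow 3 hle) (y - y')
    have hz' : red hle z = y - y' := hz
    apply Finset.card_bij (fun Y _ => Y + z)
    · intro Y hY
      simp only [mem_filter, mem_univ, true_and] at hY ⊢
      rw [map_add, hY, hz']; ring
    · intro a _ b _ hab
      exact add_right_cancel hab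
    · intro Y hY
      simp only [mem_filter, mem_univ, true_and] at hY
      refine ⟨Y - z, ?_, by ring⟩
      simp only [mem_filter, mem_univ, true_and]
      rw [map_sub, hY, hz']; ring
  have hsum := Finset.card_eq_sum_card_fiberwise (s := (univ : Finset (ZMod (3 ^ h))))
    (t := (univ : Finset (ZMod (3 ^ h1)))) (f := red hle) (fun _ _ => mem_coe.mpr (mem_univ _))
  rw [Finset.sum_congr rfl (fun y' _ => hs y'), Finset.sum_const, Finset.card_univ, Finset.card_univ,
    ZMod.card, ZMod.card, smul_eq_mul] at hsum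
  have h3 : 3 ^ h = 3 ^ h1 * 3 ^ (h - h1) := by rw [← pow_add]; congr 1; omega
  exact (Nat.eq_of_mul_eq_mul_left (by positivity) (h3.symm.trans hsum)).symm

/-- a compatible family -/
def Compat (n : ℕ) (ψ : (h : ℕ) → ZMod (3 ^ h) → ℝ) : Prop :=
  ∀ h, h < n → ∀ Y : ZMod (3 ^ h),
    ∑ Y1 ∈ (Finset.univ : Finset (ZMod (3 ^ (h + 1)))).filter (fun Y1 => (Y1.cast : ZMod (3 ^ h)) = Y), ψ (h + 1) Y1
      = 3 * ψ h Y

theorem fibre_sum {n : ℕ} {ψ : (h : ℕ) → ZMod (3 ^ h) → ℝ} (hc : Compat n ψ) {h1 : ℕ} :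
    ∀ h (hle : h1 ≤ h), h ≤ n → ∀ y : ZMod (3 ^ h1),
    ∑ Y ∈ univ.filter (fun Y : ZMod (3 ^ h) => red hle Y = y), ψ h Y = 3 ^ (h - h1) * ψ h1 y := by
  intro h hle
  induction h, hle using Nat.le_induction with
  | base =>
    intro _ y
    rw [Nat.sub_self, pow_zero, one_mul]
    have : (univ.filter (fun Y : ZMod (3 ^ h1) => red le_rfl Y = y)) = {y} := by
      ext Y
      simp only [mem_filter, mem_univ, true_and, mem_singleton, red_self]
    rw [this, Finset.sum_singleton]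
  | succ h hle ih =>
    intro hn y
    have h0 := ih (by omega) y
    have h2 : ∑ Y ∈ univ.filter (fun Y : ZMod (3 ^ (h + 1)) => red (Nat.le_succ_of_le hle) Y = y), ψ (h + 1) Y =
        ∑ Y' ∈ univ.filter (fun Y' : ZMod (3 ^ h) => red hle Y' = y),
          ∑ Y1 ∈ univ.filter (fun Y1 : ZMod (3 ^ (h + 1)) => (Y1.cast : ZMod (3 ^ h)) = Y'), ψ (h + 1) Y1 := by
      rw [← Finset.sum_fiberwise_of_maps_to (g := red (Nat.le_succ h))
        (t := univ.filter (fun Y' : ZMod (3 ^ h) => red hle Y' = y))]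
      · apply Finset.sum_congr rfl
        intro Y' hY'
        simp only [mem_filter, mem_univ, true_and] at hY'
        apply Finset.sum_congr _ (fun _ _ => rfl)
        ext Y1
        simp only [mem_filter, mem_univ, true_and]
        rw [← red_apply (Nat.le_succ h)]
        constructor
        · exact fun h => h.2
        · intro h
          refine ⟨?_, h⟩
          rw [← red_red (Nat.le_succ _) hle, h, hY']
      · intro Y hY
        simp only [mem_filter, mem_univ, true_and] at hY ⊢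
        rw [red_red, hY]
    rw [h2, Finset.sum_congr rfl (fun Y' _ => hc h (by omega) Y'), ← Finset.mul_sum, h0,
      show h + 1 - h1 = (h - h1) + 1 by omega, pow_succ]
    ring

/-- the Fourier coefficients vanish -/
theorem fourier_zero {n : ℕ} {ψ : (h : ℕ) → ZMod (3 ^ h) → ℝ} (hc : Compat n ψ) {h1 h : ℕ}
    (hle : h1 ≤ h) (hn : h ≤ n) (a : ZMod (3 ^ h)) :
    ∑ Y, ((ψ h Y - ψ h1 (red hle Y) : ℝ) : ℂ) * ee h (-(3 ^ (h - h1) * a * Y)) = 0 := by
  rw [← Finset.sum_fiberwise_of_maps_to (s := (univ : Finset (ZMod (3 ^ h)))) (g := red hle)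
    (t := (univ : Finset (ZMod (3 ^ h1)))) (fun _ _ => mem_univ _)]
  apply Finset.sum_eq_zero
  intro y _
  by_cases hne : (univ.filter (fun Y : ZMod (3 ^ h) => red hle Y = y)).Nonempty
  · obtain ⟨Y0, hY0⟩ := hne
    simp only [mem_filter, mem_univ, true_and] at hY0
    have h1' : ∀ Y ∈ univ.filter (fun Y : ZMod (3 ^ h) => red hle Y = y),
        ((ψ h Y - ψ h1 (red hle Y) : ℝ) : ℂ) * ee h (-(3 ^ (h - h1) * a * Y)) =
        ((ψ h Y - ψ h1 y : ℝ) : ℂ) * ee h (-(3 ^ (h - h1) * a * Y0)) := by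
      intro Y hY
      simp only [mem_filter, mem_univ, true_and] at hY
      rw [hY]
      congr 3
      have := pow_mul_eq hle (hY.trans hY0.symm)
      rw [mul_right_comm, this, mul_right_comm]
    rw [Finset.sum_congr rfl h1', ← Finset.sum_mul, ← Complex.ofReal_sum, Finset.sum_sub_distrib,
      fibre_sum hc h hle hn y, Finset.sum_const, card_fibre hle y, nsmul_eq_mul]
    push_cast
    simp
  · rw [Finset.not_nonempty_iff_eq_empty] at hne
    rw [hne, Finset.sum_empty]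

theorem osc : StHF → StOsc := by
  rintro ⟨c, K, k00, hc, hK, HF⟩
  -- constants
  have h95 : (1 : ℝ) < (0.95 : ℝ) ^ (-c) := by
    apply Real.one_lt_rpow_of_pos_of_lt_one_of_neg (by norm_num) (by norm_num) (by linarith)
  set K' : ℝ := 1 / ((0.95 : ℝ) ^ (-c) - 1) with hK'
  have hK'0 : 0 < K' := by rw [hK']; apply one_div_pos.mpr; linarith
  refine ⟨c, K * (1 + K'), max k00 (20 ^ 40), hc, by positivity, ?_⟩
  intro k hk S m n m' hS hm hn hm1 hm2 ρ ψ hψ hcomp
  have hcomp' : Compat n ψ := hcomp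
  have hk1 : k00 ≤ k := le_trans (le_max_left _ _) hk
  have hk2 : 20 ^ 40 ≤ k := le_trans (le_max_right _ _) hk
  have hkpos : (0 : ℝ) < k := by
    have : 0 < k := lt_of_lt_of_le (by positivity) hk2
    exact_mod_cast this
  have hm20 : (20 : ℝ) ≤ m' := by
    refine le_trans ?_ hm1
    have h1 : ((20 : ℝ) ^ (40 : ℕ)) ^ (1 / 40 : ℝ) = 20 := by
      rw [← Real.rpow_natCast, ← Real.rpow_mul (by norm_num)]
      norm_num
    calc (20 : ℝ) = ((20 : ℝ) ^ (40 : ℕ)) ^ (1 / 40 : ℝ) := h1.symm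
      _ ≤ (k : ℝ) ^ (1 / 40 : ℝ) := by
        apply Real.rpow_le_rpow (by positivity) _ (by norm_num)
        exact_mod_cast hk2
  have hm20' : 20 ≤ m' := by exact_mod_cast hm20
  set B : ℝ := K * 2 ^ k / Real.sqrt k with hB
  have hB0 : 0 ≤ B := by positivity
  -- the level sums
  set u : ℕ → ℝ := fun h => ∑ x ∈ Wd k S, ψ h ((cw n k ρ x).cast : ZMod (3 ^ h)) with hu
  have level : ∀ h h1 : ℕ, m' ≤ h → h1 ≤ h → h ≤ n → 9 * h ≤ 10 * h1 → |u h - u h1| ≤ B * (h : ℝ) ^ (-c) := by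
    intro h h1 hmh hle hhn h9
    have key := HF k hk1 S m h h1 hS hm (by omega)
      (hm1.trans (by exact_mod_cast hmh)) h9 hle (red hhn ρ)
      (fun Y => ((ψ h Y - ψ h1 (red hle Y) : ℝ) : ℂ))
      (by
        intro Y
        rw [Complex.norm_real, Real.norm_eq_abs, abs_le]
        have e1 := hψ h hhn Y
        have e2 := hψ h1 (hle.trans hhn) (red hle Y)
        constructor <;> linarith [e1.1, e1.2, e2.1, e2.2])
      (fun a => fourier_zero hcomp' hle hhn a)
    have e3 : u h - u h1 = ∑ x ∈ Wd k S, (ψ h (cw h k (red hhn ρ) x) - ψ h1 (red hle (cw h k (red hhn ρ) x))) := by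
      rw [Finset.sum_sub_distrib]
      simp only [hu]
      congr 1
      · apply Finset.sum_congr rfl
        intro x _
        rw [← red_cw hhn, red_apply]
      · apply Finset.sum_congr rfl
        intro x _
        rw [← red_cw hhn, red_red, red_apply]
    rw [← Complex.ofReal_sum, Complex.norm_real, Real.norm_eq_abs, ← e3] at key
    exact key
  -- potential
  have main : ∀ h : ℕ, m' ≤ h → h ≤ n →
      |u h - u m'| ≤ B * ((m' : ℝ) ^ (-c) + K' * ((m' : ℝ) ^ (-c) - (h : ℝ) ^ (-c))) := by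
    intro h
    induction h using Nat.strong_induction_on with
    | _ h ih =>
      intro hmh hhn
      have hmpos : (0 : ℝ) < m' := by linarith
      have hhpos : (0 : ℝ) < h := lt_of_lt_of_le hmpos (by exact_mod_cast hmh)
      have hanti : (h : ℝ) ^ (-c) ≤ (m' : ℝ) ^ (-c) := by
        apply Real.rpow_le_rpow_of_nonpos hmpos (by exact_mod_cast hmh) (by linarith)
      by_cases hcase : 9 * h ≤ 10 * m'
      · have e1 := level h m' hmh hmh hhn hcase
        refine e1.trans ?_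
        apply mul_le_mul_of_nonneg_left _ hB0
        have : 0 ≤ K' * ((m' : ℝ) ^ (-c) - (h : ℝ) ^ (-c)) := mul_nonneg hK'0.le (by linarith)
        linarith
      · push Not at hcase
        obtain ⟨h1, hh1⟩ : ∃ h1 : ℕ, h1 = (9 * h + 9) / 10 := ⟨_, rfl⟩
        have e9 : 9 * h ≤ 10 * h1 := by omega
        have e10 : 10 * h1 ≤ 9 * h + 9 := by omega
        have hlt : h1 < h := by omega
        have hmh1 : m' ≤ h1 := by omega
        have e1 := level h h1 hmh hlt.le hhn e9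
        have e2 := ih h1 hlt hmh1 (by omega)
        have h1pos : (0 : ℝ) < h1 := lt_of_lt_of_le hmpos (by exact_mod_cast hmh1)
        have h1le : (h1 : ℝ) ≤ 0.95 * h := by
          have a1 : (10 : ℝ) * h1 ≤ 9 * h + 9 := by exact_mod_cast e10
          have a2 : (20 : ℝ) ≤ h := by exact_mod_cast hm20'.trans hmh
          linarith
        have hpow : (0.95 : ℝ) ^ (-c) * (h : ℝ) ^ (-c) ≤ (h1 : ℝ) ^ (-c) := by
          rw [← Real.mul_rpow (by norm_num) hhpos.le]
          exact Real.rpow_le_rpow_of_nonpos h1pos h1le (by linarith)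
        have hgain : (h : ℝ) ^ (-c) ≤ K' * ((h1 : ℝ) ^ (-c) - (h : ℝ) ^ (-c)) := by
          have a1 : ((0.95 : ℝ) ^ (-c) - 1) * (h : ℝ) ^ (-c) ≤ (h1 : ℝ) ^ (-c) - (h : ℝ) ^ (-c) := by
            nlinarith
          calc (h : ℝ) ^ (-c) = K' * (((0.95 : ℝ) ^ (-c) - 1) * (h : ℝ) ^ (-c)) := by
                rw [hK']
                have : (0.95 : ℝ) ^ (-c) - 1 ≠ 0 := by linarith
                field_simp
            _ ≤ _ := mul_le_mul_of_nonneg_left a1 hK'0.le
        have e3 : |u h - u m'| ≤ |u h - u h1| + |u h1 - u m'| := abs_sub_le _ _ _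
        calc |u h - u m'| ≤ |u h - u h1| + |u h1 - u m'| := e3
          _ ≤ B * (h : ℝ) ^ (-c) + B * ((m' : ℝ) ^ (-c) + K' * ((m' : ℝ) ^ (-c) - (h1 : ℝ) ^ (-c))) :=
            add_le_add e1 e2
          _ = B * ((h : ℝ) ^ (-c) + ((m' : ℝ) ^ (-c) + K' * ((m' : ℝ) ^ (-c) - (h1 : ℝ) ^ (-c)))) := by ring
          _ ≤ B * ((m' : ℝ) ^ (-c) + K' * ((m' : ℝ) ^ (-c) - (h : ℝ) ^ (-c))) := by
            apply mul_le_mul_of_nonneg_left _ hB0
            nlinarith
  have fin := main n hm2 le_rfl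
  have e4 : ∑ x ∈ Wd k S, (ψ n (cw n k ρ x) - ψ m' ((cw n k ρ x).cast : ZMod (3 ^ m'))) = u n - u m' := by
    rw [Finset.sum_sub_distrib]
    simp only [hu]
    congr 1
    apply Finset.sum_congr rfl
    intro x _
    rw [← red_apply le_rfl, red_self]
  rw [e4]
  refine fin.trans ?_
  have hnpos : (0 : ℝ) ≤ (n : ℝ) ^ (-c) := Real.rpow_nonneg (Nat.cast_nonneg _) _
  calc B * ((m' : ℝ) ^ (-c) + K' * ((m' : ℝ) ^ (-c) - (n : ℝ) ^ (-c)))
      ≤ B * ((m' : ℝ) ^ (-c) + K' * (m' : ℝ) ^ (-c)) := by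
        apply mul_le_mul_of_nonneg_left _ hB0
        have := mul_nonneg hK'0.le hnpos
        nlinarith
    _ = K * (1 + K') * 2 ^ k / Real.sqrt k * (m' : ℝ) ^ (-c) := by
        rw [hB]; ring

end Pool.Agent.K7.H4.TD
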